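import Pool.Agent.helper29.NS.Spec2

/-!
# Project ns: (MP_b9b054_an), module GL: gluing with zero
-/

namespace NS

open MeasureTheory Filter Topology Set

theorem GL_hasFDerivAt {E F : Type*} [NormedAddCommGroup E] [NormedSpace ℝ E]
    [NormedAddCommGroup F] [NormedSpace ℝ F] {A O : Set E} {h : E → F} (hA : IsOpen A)
    (hh : Differentiable ℝ h) (h0 : ∀ z ∈ frontier A ∩ O, h z = 0 ∧ fderiv ℝ h z = 0) {z : E}
    (hz : z ∈ O) : HasFDerivAt (A.indicator h) (A.indicator (fderiv ℝ h) z) z := by
  by_cases hzA : z ∈ A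
  · rw [indicator_of_mem hzA]
    refine (hh z).hasFDerivAt.congr_of_eventuallyEq ?_
    filter_upwards [hA.mem_nhds hzA] with x hx
    exact indicator_of_mem hx h
  · rw [indicator_of_notMem hzA]
    by_cases hzc : z ∈ closure A
    · have hzf : z ∈ frontier A := by
        rw [hA.frontier_eq]
        exact ⟨hzc, hzA⟩
      obtain ⟨e0, e1⟩ := h0 z ⟨hzf, hz⟩
      have hd := (hh z).hasFDerivAt
      rw [e1, hasFDerivAt_iff_isLittleO] at hd
      rw [hasFDerivAt_iff_isLittleO]
      refine Asymptotics.IsBigO.trans_isLittleO ?_ hd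
      refine Asymptotics.isBigO_of_le _ fun x => ?_
      rw [indicator_of_notMem hzA, e0]
      simp only [sub_zero, ContinuousLinearMap.zero_apply]
      exact norm_indicator_le_norm_self h x
    · refine (hasFDerivAt_const (0 : F) z).congr_of_eventuallyEq ?_
      filter_upwards [isClosed_closure.isOpen_compl.mem_nhds hzc] with x hx
      exact indicator_of_notMem (fun hxA => hx (subset_closure hxA)) h

theorem GL_cont {E F : Type*} [TopologicalSpace E] [NormedAddCommGroup F]
    {A O : Set E} {h : E → F} (hA : IsOpen A) (hh : Continuous h)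
    (h0 : ∀ z ∈ frontier A ∩ O, h z = 0) : ContinuousOn (A.indicator h) O := by
  intro z hz
  refine ContinuousAt.continuousWithinAt ?_
  by_cases hzA : z ∈ A
  · refine hh.continuousAt.congr ?_
    filter_upwards [hA.mem_nhds hzA] with x hx
    exact (indicator_of_mem hx h).symm
  · by_cases hzc : z ∈ closure A
    · have hzf : z ∈ frontier A := by
        rw [hA.frontier_eq]
        exact ⟨hzc, hzA⟩
      have e0 := h0 z ⟨hzf, hz⟩
      have ht : Tendsto h (𝓝 z) (𝓝 0) := by
        have := hh.continuousAt (x := z)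
        rwa [ContinuousAt, e0] at this
      rw [ContinuousAt, indicator_of_notMem hzA]
      exact squeeze_zero_norm (fun x => norm_indicator_le_norm_self h x) (by simpa using ht.norm)
    · refine (continuousAt_const (y := (0 : F))).congr ?_
      filter_upwards [isClosed_closure.isOpen_compl.mem_nhds hzc] with x hx
      exact (indicator_of_notMem (fun hxA => hx (subset_closure hxA)) h).symm

theorem GL_C1 {E F : Type*} [NormedAddCommGroup E] [NormedSpace ℝ E]
    [NormedAddCommGroup F] [NormedSpace ℝ F] {A O : Set E} {h : E → F} (hA : IsOpen A)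
    (hO : IsOpen O) (hh : ContDiff ℝ 1 h)
    (h0 : ∀ z ∈ frontier A ∩ O, h z = 0 ∧ fderiv ℝ h z = 0) :
    ContDiffOn ℝ 1 (A.indicator h) O := by
  have hd : Differentiable ℝ h := hh.differentiable one_ne_zero
  have e : ∀ z ∈ O, fderiv ℝ (A.indicator h) z = A.indicator (fderiv ℝ h) z :=
    fun z hz => (GL_hasFDerivAt hA hd h0 hz).fderiv
  have h01 : (1 : WithTop ℕ∞) = 0 + 1 := by norm_num
  rw [h01, contDiffOn_succ_iff_fderiv_of_isOpen hO]
  refine ⟨fun z hz => (GL_hasFDerivAt hA hd h0 hz).differentiableAt.differentiableWithinAt,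
    fun h => by simp at h, ?_⟩
  rw [contDiffOn_zero]
  refine (GL_cont hA (hh.continuous_fderiv one_ne_zero) fun z hz => (h0 z hz).2).congr e

theorem GLm : GL_stmt := by
  intro A O f hA hO hf h0
  have hd : Differentiable ℝ f := hf.differentiable two_ne_zero
  have hf1 : ContDiff ℝ 1 (fderiv ℝ f) := hf.fderiv_right (by norm_num)
  have hd1 : Differentiable ℝ (fderiv ℝ f) := hf1.differentiable one_ne_zero
  have h01 : ∀ z ∈ frontier A ∩ O, f z = 0 ∧ fderiv ℝ f z = 0 :=
    fun z hz => ⟨(h0 z hz).1, (h0 z hz).2.1⟩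
  have h12 : ∀ z ∈ frontier A ∩ O, fderiv ℝ f z = 0 ∧ fderiv ℝ (fderiv ℝ f) z = 0 :=
    fun z hz => (h0 z hz).2
  have e1 : ∀ z ∈ O, fderiv ℝ (A.indicator f) z = A.indicator (fderiv ℝ f) z :=
    fun z hz => (GL_hasFDerivAt hA hd h01 hz).fderiv
  refine ⟨?_, e1, fun z hz => ?_⟩
  · have : (2 : WithTop ℕ∞) = 1 + 1 := by norm_num
    rw [this, contDiffOn_succ_iff_fderiv_of_isOpen hO]
    refine ⟨fun z hz => (GL_hasFDerivAt hA hd h01 hz).differentiableAt.differentiableWithinAt,
      fun h => by simp at h, ?_⟩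
    exact (GL_C1 hA hO hf1 h12).congr e1
  · have e : fderiv ℝ (A.indicator f) =ᶠ[𝓝 z] A.indicator (fderiv ℝ f) := by
      filter_upwards [hO.mem_nhds hz] with x hx
      exact e1 x hx
    rw [e.fderiv_eq]
    exact (GL_hasFDerivAt hA hd1 h12 hz).fderiv

end NS

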